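import Pool.Agent.Q60.SS.PZero

/-!
# MP_b685ef_ag: a zero-one law for every multiplicative family of eigenvalues of Frobenius

Let `X` be a complete variety, possibly singular, over a finite field, and `P` a set of pairs
(degree, eigenvalue) which contains `(0, 1)` and is closed under products, for instance the pairs
`(2 j, q ^ j)` (Tate classes), the pairs `(m, q ^ j)`, the pairs `(m, γ)` with `γ` of weight `m`, or all
the pairs. Let `t_n` be the sum of the dimensions of the eigenspaces and `z_n` the sum of the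
multiplicities of the eigenvalues of the Frobenius on the cohomology of `X^n`, over the pairs in `P`.

* `t_n = z_n` means that the eigenvalues in `P` are semisimple on the cohomology of `X^n`.
* Either this holds for all `n`, or `t_n ≤ C z_n / √n` for a constant `C` and all `n`.
* So `t_n ≥ ε z_n` for some `ε > 0` and infinitely many `n` implies it for all `n`.
-/

set_option autoImplicit false

open Module Filter Topology

universe u v w

namespace Pool.Agent.Results.MP_b685ef_ag.EigenvalueZeroOne

open Pool.Agent.Q60.SS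

/-- **The zero-one law for a multiplicative family of eigenvalues.** -/
theorem result {k : Type u} [Field k] [Finite k] {Ω : Type w} [Field Ω] [CharZero Ω]
    [IsAlgClosed Ω] {T : CTheory.{u, v, w} k Ω} (hT : T.IsFin)
    (hT' : ∀ X : CVar.{u} k, Nonempty X.X → HasUnit (T.H X)) (X : CVar.{u} k) (hX : Nonempty X.X)
    (P : Set (ℕ × Ω)) (hP : IsMult P) :
    (∀ n, 0 < multP (T.H (X.pow n)) P) ∧
    (∀ n, eigP (T.H (X.pow n)) P = multP (T.H (X.pow n)) P ↔ SemisimpleP (T.H (X.pow n)) P) ∧
    ((∀ n, SemisimpleP (T.H (X.pow n)) P) ∨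
      ∃ C : ℝ, 0 < C ∧ ∀ n : ℕ, √((n + 1 : ℕ) : ℝ) * (eigP (T.H (X.pow n)) P : ℝ) ≤
        C * (multP (T.H (X.pow n)) P : ℝ)) ∧
    (∀ ε : ℝ, 0 < ε → (∃ᶠ n in atTop, ε * (multP (T.H (X.pow n)) P : ℝ) ≤
      (eigP (T.H (X.pow n)) P : ℝ)) → ∀ n, SemisimpleP (T.H (X.pow n)) P) := by
  have h0 := fun n => eigP_eq_iff (hT.coh (X.pow n)) P
  have hpos : 0 < multP (T.H X) P := multP_pos (hT.coh X) hP.one (hT' X hX)
  obtain ⟨h1, h2⟩ := p_zero_one hP (R := fun n => T.H (X.pow n)) (hT.coh X)
    (fun n => (hT.coh _).isInternal) (fun n => hT.kunneth X (X.pow n)) hpos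
  refine ⟨h1, h0, ?_, fun ε hε h n => ?_⟩
  · rcases h2 with h2 | h2
    · exact Or.inl fun n => (h0 n).1 (h2 n)
    · exact Or.inr h2
  · exact (h0 n).1 (eq_of_eigP hP (R := fun n => T.H (X.pow n)) (hT.coh X)
      (fun n => (hT.coh _).isInternal) (fun n => hT.kunneth X (X.pow n)) hpos hε h n)

end Pool.Agent.Results.MP_b685ef_ag.EigenvalueZeroOne
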