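import Pool.Agent.Q148.LI.Frob

/-!
# Frobenius semisimplicity is decided by one weight in the cohomology of the cubics `T(x, y, z) = 1`

Let `k` be a finite field with `q` elements, `ℓ` a prime number not dividing `q`, `E` an algebraic closure
of `ℚ_ℓ`. For a complete variety `X` over `k` let `H j X` be `H^j(X ⊗ k̄, E)` with the geometric Frobenius
`F`, and for a separated scheme `X` of finite type let `D.G w j X = Gr^W_w H^j_c(X ⊗ k̄, E)` be the part
of weight `w` of the cohomology with compact supports; the weights are at most `j`. Let `S` be a set of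
elements of `E` which is stable under multiplication with powers of `q`, for example the set of all
elements of `E`, or the set of the powers of `q` (the eigenvalues that are relevant for the conjecture of
Tate). `NoBlock S V` says that the Jordan blocks of `F` on `V` with the eigenvalues in `S` have size one;
for `S = E` this means that `F` is semisimple.

The hypersurfaces `T(x, y, z) = 1` of trilinear forms `T` (in any number of variables `x_i`, `y_j`,
`z_l`) are smooth and affine. The weights of `H^j_c(T = 1)` are at most `j`, those of `H^i(T = 1)` are at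
least `i`, and the part of weight `j - 1` of `H^j_c(T = 1)` is dual to the part of weight `i + 1` of
`H^i(T = 1)`, `i = 2 dim - j`, up to a Tate twist.

**Theorem.** The following are equivalent:

1. `F` has no Jordan block of size at least two with an eigenvalue in `S` on the cohomology of any
   complete variety over `k` (question Q1 for `k`, `ℓ` and the eigenvalues in `S`);
2. the same for the smooth projective varieties over `k`;
3. the same for all parts `Gr^W_w H^j_c(X)` of all separated schemes of finite type over `k`;
4. the same for the single part `Gr^W_{j-1} H^j_c(T = 1)`, for all `j` and all trilinear forms `T` over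
   `k`.

If `k` is a prime field, it is enough in (4) to consider the cubics `∑_{(i, j, l) ∈ H} x_i y_j z_l = 1`
without coefficients, for all finite sets `H` of triples. (Q1 over all finite fields of characteristic `p`
is equivalent to Q1 over the prime field, where varieties over extensions are varieties over the
prime field.)
-/

set_option autoImplicit false

open CategoryTheory AlgebraicGeometry Pool.Agent.Y116.UV Pool.Agent.Z125.UN
  Pool.Agent.Q193.LT Pool.Agent.Q148.LI

namespace Pool.Agent.Results.MP_b685ef_ag.OneWeightOfCubics

variable {k : Type} [Field k] {E : Type} [Field E]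

/-- Q1 for `k` and the eigenvalues in `S`. -/
def Q1 (k : Type) [Field k] (H : ℤ → Sch k → FMod E) (S : Set E) : Prop :=
  ∀ X : Sch k, Complete X → ∀ j, NoBlock S (H j X)

/-- The same for smooth projective schemes. -/
def Q1Smooth (k : Type) [Field k] (H : ℤ → Sch k → FMod E) (S : Set E) : Prop :=
  ∀ X : Sch k, SmoothProj X → ∀ j, NoBlock S (H j X)

/-- The same for all parts of all schemes. -/
def AllParts (D : WtData k (FMod E)) (S : Set E) : Prop :=
  ∀ X : Sch k, FT True X → ∀ w j, NoBlock S (D.G w j X)

/-- The same for the part of weight `j - 1` of `H^j_c(X)`. -/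
def OnePart (D : WtData k (FMod E)) (S : Set E) (X : Sch k) : Prop :=
  ∀ j, NoBlock S (D.G (j - 1) j X)

/-- **One weight decides.** See the explanations above. -/
theorem result [Finite k] {ℓ : ℕ} [Fact ℓ.Prime] {D : WtData k (FMod (AlgebraicClosure ℚ_[ℓ]))}
    {H : ℤ → Sch k → FMod (AlgebraicClosure ℚ_[ℓ])} (h : IsFrob D H (Nat.card k))
    (S : Set (AlgebraicClosure ℚ_[ℓ])) (hS : Stable (Nat.card k) S) :
    List.TFAE [
      Q1 k H S,
      Q1Smooth k H S,
      AllParts D S,
      ∀ (a b c : ℕ) (T : Fin a → Fin b → Fin c → k), OnePart D S (hypS T)] ∧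
    (Frac k → (Q1 k H S ↔
      ∀ (a b c : ℕ) (H : Finset (Fin a × Fin b × Fin c)), OnePart D S (tripS k H))) := by
  have : CharZero (AlgebraicClosure ℚ_[ℓ]) :=
    charZero_of_injective_algebraMap (algebraMap ℚ_[ℓ] (AlgebraicClosure ℚ_[ℓ])).injective
  have hq : ((Nat.card k : ℕ) : AlgebraicClosure ℚ_[ℓ]) ≠ 0 := by
    exact_mod_cast Nat.card_pos.ne'
  have hsub := h.sub hq hS
  have h43 : (∀ Y : Sch k, SmoothProj Y → ∀ j, NoBlock S (D.G j j Y)) → AllParts D S :=
    fun h1 => h.subquotient S h1
  have h31 : AllParts D S → Q1 k H S :=
    fun h1 X hX j => (h.full X hX S j).mpr fun w => h1 X (Complete.ft hX) w j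
  have h12 : Q1 k H S → Q1Smooth k H S :=
    fun h1 Y hY => h1 Y (SmoothProj.proper' hY).proper
  have h23 : Q1Smooth k H S → AllParts D S := fun h1 => h43 fun Y hY j =>
    (h.full Y (SmoothProj.proper' hY).proper S j).mp (h1 Y hY j) j
  refine ⟨?_, fun hk => ⟨fun h1 a b c H => ?_, fun h1 => ?_⟩⟩
  · tfae_have 1 → 2 := h12
    tfae_have 2 → 3 := h23
    tfae_have 3 → 1 := h31
    tfae_have 3 → 4 := fun h1 a b c T j => h1 _ (ft_aff True) _ _
    tfae_have 4 → 3 := fun h1 => h43 (one_piece h.wt hsub h.device h1)
    tfae_finish
  · exact fun j => h23 (h12 h1) _ (ft_aff True) _ _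
  · exact h31 (h43 (one_piece_graph hk h.wt hsub h.device h1))

end Pool.Agent.Results.MP_b685ef_ag.OneWeightOfCubics
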