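import Pool.Agent.Q82.SF.Prod

/-!
# Semisimplicity of Frobenius: Jordan blocks of size two and poles of excess two on the square

Let `W` be a Weil cohomology theory for the smooth projective varieties over an algebraic closure of the
field with `p` elements, with Frobenius endomorphisms `Φ` (`FrobSystem`), `X` a variety of dimension `n`
and `D` a divisor on `X` with hard Lefschetz. Let `d ≤ n`.

1. Suppose that, over arbitrarily large finite fields (with `q` elements), the Jordan blocks of the
   Frobenius endomorphism of `X × X` on `H^(2d)(X × X)` for the **one** eigenvalue `q ^ d` have size at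
   most two. Then the Frobenius endomorphism of `X` acts semisimply on `H^i(X)` (for all its
   eigenvalues) for all `i ≤ d` and all `i ≥ 2 n - d`.

2. For `d = n` the following are equivalent: the blocks for the eigenvalue `q ^ n` on `H^(2n)(X × X)`
   have size at most two; they have size one; Frobenius is semisimple on `H^i(X)` for all `i`; for all
   `j` the eigenvalue `q ^ j` is semisimple on `H^(2j)(X × X)`.

3. Suppose the Riemann hypothesis for `X × X` (a theorem of Deligne for the `ℓ`-adic cohomology). If, over
   arbitrarily large finite fields, the order of the pole of the zeta function of `X × X` at the **one**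
   integer `d` exceeds the rank of the group of the cycles of codimension `d` on `X × X` modulo
   numerical equivalence by at most two, then Frobenius is semisimple on `H^i(X)` for all `i ≤ d` and all
   `i ≥ 2 n - d`; in particular on the whole cohomology of `X` if `d = n`.

So a failure of semisimplicity produces a Jordan block of size three for the eigenvalue `q ^ n` in the
middle cohomology of a square, and an excess of the order of the pole over the rank of at least three
(the conjecture of Tate predicts that the excess is zero).
-/

set_option autoImplicit false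

open CategoryTheory AlgebraicGeometry

universe u v

namespace Pool.Agent.Results.MP_b685ef_ag.SmallBlocksOnSquares

open Pool.Agent.H914 VarClass Obj Pool.Agent.W534 Pool.Agent.Q82.SF

/-- **Blocks of size two and poles of excess two on the square.** -/
theorem result {k : Type u} [Field k] {𝒱 : VarClass k} {ops : CycleOps 𝒱}
    (W : WeilCohomology.{u, v} ops) (p : ℕ) (Φ : FrobSystem W p) (X : 𝒱.Obj) (D : X.Cycles)
    (hD : X.IsCyc 1 D) (hHL : HardLefschetz W X D) :
    (∀ d ≤ X.dim, SquareBlocksLE Φ X d 2 → SemisimpleOuter Φ X d) ∧
    List.TFAE [SquareBlocksLE Φ X X.dim 2, SquareBlocksLE Φ X X.dim 1, SemisimpleOuter Φ X X.dim,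
      ∀ j, SquareBlocksLE Φ X j 1] ∧
    (1 < p → ∀ σ : W.K →+* ℂ, ∀ d ≤ X.dim, SquarePoleExcessLE Φ σ X d 2 →
      SemisimpleOuter Φ X d) := by
  refine ⟨fun d hd h i hi hid => semisimple_range Φ hD hHL hd h hi hid, ?_,
    fun hp σ d hd h i hi hid => ?_⟩
  · have h := square_tfae Φ hD hHL
    have e : SemisimpleOuter Φ X X.dim ↔ ∀ i ≤ 2 * X.dim, FrobSemisimple Φ X i :=
      ⟨fun h i hi => h i hi (by omega), fun h i hi _ => h i hi⟩
    tfae_have 1 → 3 := fun h1 => e.2 ((h.out 0 2).1 h1)
    tfae_have 3 → 4 := fun h1 => (h.out 2 3).1 (e.1 h1)
    tfae_have 4 → 2 := fun h1 => h1 _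
    tfae_have 2 → 1 := fun h1 => (h.out 1 0).1 h1
    tfae_finish
  · have hdim : (X.prod X).dim = X.dim + X.dim := dim_prod X X
    exact semisimple_range Φ hD hHL hd (blocksLE_of_pole Φ hp h.1 (by omega) h.2) hi hid

end Pool.Agent.Results.MP_b685ef_ag.SmallBlocksOnSquares
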